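import Pool.Agent.Helper34.PU.Goals

/-!
Packet INT of MP_8060f4_co: from a weighted cover to an integral cover.
-/

set_option autoImplicit false

open Finset
open scoped Classical

namespace Pool.Agent.Helper83.PU

open Pool.Agent.Helper34.PU

/-- counting in a sigma type -/
theorem cnt {V : Type} [Fintype V] (m : Finset V → ℕ) (P : Finset V → Prop)
    [D : DecidablePred fun j : (Σ S : Finset V, Fin (m S)) => P j.1] [D' : DecidablePred P] :
    (univ.filter (fun j : (Σ S : Finset V, Fin (m S)) => P j.1)).card =
      ∑ S : Finset V, if P S then m S else 0 := by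
  rw [Finset.card_filter, Fintype.sum_sigma]
  refine Finset.sum_congr rfl fun S _ => ?_
  by_cases h : P S
  · simp [h]
  · simp [h]

/-- regrouping -/
theorem regroup {V : Type} [Fintype V] {Ω : Type} [Fintype Ω] (w : Ω → ℝ) (X : Ω → Finset V)
    (P : Finset V → Prop) [D : DecidablePred P] :
    (∑ S : Finset V, if P S then (∑ ω, if X ω = S then w ω else 0) else 0) =
      ∑ ω, if P (X ω) then w ω else 0 := by
  have h1 : ∀ S : Finset V, (if P S then (∑ ω, if X ω = S then w ω else 0) else 0) =
      ∑ ω, if X ω = S then (if P S then w ω else 0) else 0 := by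
    intro S
    by_cases h : P S
    · simp [h]
    · simp [h]
  rw [Finset.sum_congr rfl fun S _ => h1 S, Finset.sum_comm]
  refine Finset.sum_congr rfl fun ω _ => ?_
  rw [Finset.sum_ite_eq]
  simp

theorem int_cover (hB : BallStmt) : IntStmt := by
  intro Δ K Mw σ η hσ0 hσ1 hη hMw V _ H hdeg hreal
  obtain ⟨Ω, _, w, X, hw, hcard, hwalk, hv, he⟩ := hreal
  set C : ℕ := 2 ^ ((Δ + 1) ^ K) with hC
  set B : ℕ := ⌊(Mw : ℝ) * η⌋₊ + C + 1 with hBd
  set s : ℕ := ⌊(Mw : ℝ) * σ⌋₊ with hs
  set β : ℕ := Mw + Δ * B + 1 with hβ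
  let W : Finset V → ℝ := fun S => ∑ ω, if X ω = S then w ω else 0
  have hW0 : ∀ S, 0 ≤ W S := by
    intro S
    refine Finset.sum_nonneg fun ω _ => ?_
    split_ifs
    · exact hw ω
    · exact le_refl _
  have hWpos : ∀ S, W S ≠ 0 → ∃ ω, X ω = S := by
    intro S hS
    by_contra hcon
    push Not at hcon
    apply hS
    refine Finset.sum_eq_zero fun ω _ => ?_
    rw [if_neg (hcon ω)]
  let nS : Finset V → ℕ := fun S => ⌊(Mw : ℝ) * W S⌋₊
  have hMw0 : (0 : ℝ) ≤ Mw := Nat.cast_nonneg _
  have hnS_le : ∀ S, (nS S : ℝ) ≤ Mw * W S := fun S => Nat.floor_le (mul_nonneg hMw0 (hW0 S))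
  have hnS_pos : ∀ S, nS S ≠ 0 → W S ≠ 0 := by
    intro S h1 h2
    apply h1
    simp only [nS, h2, mul_zero, Nat.floor_zero]
  -- sums of `nS`
  have hup : ∀ (P : Finset V → Prop) [DecidablePred P], ((∑ S : Finset V, if P S then nS S else 0 : ℕ) : ℝ) ≤
      Mw * ∑ ω, if P (X ω) then w ω else 0 := by
    intro P _
    rw [← regroup w X P, Finset.mul_sum]
    push_cast
    refine Finset.sum_le_sum fun S _ => ?_
    split_ifs with h
    · exact hnS_le S
    · simp
  -- number of sets with positive weight containing `a`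
  have hfew : ∀ a : V, (univ.filter (fun S : Finset V => a ∈ S ∧ W S ≠ 0)).card ≤ C := by
    intro a
    have h1 : (univ.filter (fun S : Finset V => a ∈ S ∧ W S ≠ 0)) ⊆
        (univ.filter (fun b => ∃ p : H.Walk a b, p.length ≤ K)).powerset := by
      intro S hS
      rw [Finset.mem_filter] at hS
      obtain ⟨-, haS, hWS⟩ := hS
      obtain ⟨ω, hω⟩ := hWpos S hWS
      rw [Finset.mem_powerset]
      intro b hb
      rw [Finset.mem_filter]
      refine ⟨Finset.mem_univ _, hwalk ω a ?_ b ?_⟩
      · rw [hω]; exact haS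
      · rw [hω]; exact hb
    refine (Finset.card_le_card h1).trans ?_
    rw [Finset.card_powerset, hC]
    exact Nat.pow_le_pow_right (by norm_num) (hB V H Δ K a hdeg)
  have hlo : ∀ a b : V, Mw * (∑ ω, if a ∈ X ω ∧ b ∈ X ω then w ω else 0) - C ≤
      ((∑ S : Finset V, if a ∈ S ∧ b ∈ S then nS S else 0 : ℕ) : ℝ) := by
    intro a b
    have h1 := regroup w X (fun S => a ∈ S ∧ b ∈ S)
    have h2 : (∑ S : Finset V, if a ∈ S ∧ W S ≠ 0 then (1 : ℝ) else 0) ≤ C := by
      have := hfew a
      rw [Finset.card_filter] at this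
      exact_mod_cast this
    have h3 : Mw * (∑ S : Finset V, if a ∈ S ∧ b ∈ S then W S else 0) -
        (∑ S : Finset V, if a ∈ S ∧ W S ≠ 0 then (1 : ℝ) else 0) ≤
        ((∑ S : Finset V, if a ∈ S ∧ b ∈ S then nS S else 0 : ℕ) : ℝ) := by
      rw [Finset.mul_sum, ← Finset.sum_sub_distrib]
      push_cast
      refine Finset.sum_le_sum fun S _ => ?_
      by_cases hab : a ∈ S ∧ b ∈ S
      · rw [if_pos hab, if_pos hab]
        by_cases hWS : W S = 0
        · rw [if_neg (fun h => h.2 hWS), hWS]
          simp
        · rw [if_pos ⟨hab.1, hWS⟩]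
          have := Nat.lt_floor_add_one ((Mw : ℝ) * W S)
          simp only [nS]
          linarith
      · rw [if_neg hab, if_neg hab]
        split_ifs <;> simp
    rw [← h1]
    linarith
  -- the multiplicities
  let E : Finset V → Prop := fun S => ∃ a b, H.Adj a b ∧ S = {a, b}
  let cv : Finset V → ℕ := fun S => ∑ S' : Finset V, if S ⊆ S' then nS S' else 0
  let m2 : Finset V → ℕ := fun S => if E S then s - cv S else 0
  let L : V → ℕ := fun v => ∑ S : Finset V, if v ∈ S then nS S + m2 S else 0
  let m3 : Finset V → ℕ := fun S => ∑ v : V, if S = {v} then β - L v else 0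
  let m : Finset V → ℕ := fun S => nS S + m2 S + m3 S
  have hcv : ∀ a b : V, cv {a, b} = ∑ S : Finset V, if a ∈ S ∧ b ∈ S then nS S else 0 := by
    intro a b
    refine Finset.sum_congr rfl fun S _ => ?_
    have : ({a, b} : Finset V) ⊆ S ↔ a ∈ S ∧ b ∈ S := by
      rw [Finset.insert_subset_iff, Finset.singleton_subset_iff]
    by_cases h : a ∈ S ∧ b ∈ S
    · rw [if_pos h, if_pos (this.2 h)]
    · rw [if_neg h, if_neg (fun h' => h (this.1 h'))]
  have hcvs : ∀ a b : V, H.Adj a b → cv {a, b} ≤ s := by
    intro a b hab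
    rw [hs]
    apply Nat.le_floor
    rw [hcv]
    refine (hup (fun S => a ∈ S ∧ b ∈ S)).trans ?_
    exact mul_le_mul_of_nonneg_left (he a b hab).2 hMw0
  have hcvB : ∀ a b : V, H.Adj a b → s - cv {a, b} ≤ B := by
    intro a b hab
    have h1 := hlo a b
    rw [← hcv] at h1
    have h2 := (he a b hab).1
    have h3 : (Mw : ℝ) * (σ - η) ≤ Mw * (∑ ω, if a ∈ X ω ∧ b ∈ X ω then w ω else 0) :=
      mul_le_mul_of_nonneg_left h2 hMw0
    have h4 : (s : ℝ) ≤ Mw * σ := Nat.floor_le (mul_nonneg hMw0 hσ0.le)
    have h5 := Nat.lt_floor_add_one ((Mw : ℝ) * η)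
    have h6 : (s : ℝ) ≤ cv {a, b} + B := by
      rw [hBd]
      push_cast
      nlinarith
    have h7 : s ≤ cv {a, b} + B := by exact_mod_cast h6
    exact Nat.sub_le_iff_le_add'.2 h7
  have hm2B : ∀ S, m2 S ≤ B := by
    intro S
    simp only [m2]
    split_ifs with h
    · obtain ⟨a, b, hab, rfl⟩ := h
      exact hcvB a b hab
    · exact Nat.zero_le _
  have hload : ∀ v, (∑ S : Finset V, if v ∈ S then nS S else 0) ≤ Mw := by
    intro v
    have h1 := hup (fun S => v ∈ S)
    rw [hv v, mul_one] at h1
    exact_mod_cast h1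
  have hm2v : ∀ v, (∑ S : Finset V, if v ∈ S then m2 S else 0) ≤ Δ * B := by
    intro v
    have h1 : (∑ S : Finset V, if v ∈ S then m2 S else 0) ≤
        ∑ S ∈ (nbr H v).image (fun b => ({v, b} : Finset V)), B := by
      rw [← Finset.sum_filter]
      have h2 : ∑ S ∈ univ.filter (fun S : Finset V => v ∈ S), m2 S ≤
          ∑ S ∈ (nbr H v).image (fun b => ({v, b} : Finset V)), m2 S := by
        rw [← Finset.sum_filter_add_sum_filter_not (univ.filter (fun S : Finset V => v ∈ S)) E]
        have h3 : ∑ S ∈ (univ.filter (fun S : Finset V => v ∈ S)).filter (fun S => ¬ E S), m2 S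
            = 0 := by
          refine Finset.sum_eq_zero fun S hS => ?_
          rw [Finset.mem_filter] at hS
          simp only [m2]
          rw [if_neg hS.2]
        rw [h3, add_zero]
        refine Finset.sum_le_sum_of_subset ?_
        intro S hS
        rw [Finset.mem_filter, Finset.mem_filter] at hS
        obtain ⟨⟨-, hvS⟩, a, b, hab, hSab⟩ := hS
        rw [Finset.mem_image]
        rw [hSab, Finset.mem_insert, Finset.mem_singleton] at hvS
        rcases hvS with h | h
        · refine ⟨b, ?_, ?_⟩
          · rw [nbr, Finset.mem_filter]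
            exact ⟨Finset.mem_univ _, h ▸ hab⟩
          · rw [hSab, h]
        · refine ⟨a, ?_, ?_⟩
          · rw [nbr, Finset.mem_filter]
            exact ⟨Finset.mem_univ _, h ▸ hab.symm⟩
          · rw [hSab, h, Finset.pair_comm]
      exact h2.trans (Finset.sum_le_sum fun S _ => hm2B S)
    refine h1.trans ?_
    rw [Finset.sum_const, smul_eq_mul]
    exact Nat.mul_le_mul_right _ (Finset.card_image_le.trans (hdeg v))
  have hLsum : ∀ v, L v = (∑ S : Finset V, if v ∈ S then nS S else 0) +
      ∑ S : Finset V, if v ∈ S then m2 S else 0 := by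
    intro v
    rw [← Finset.sum_add_distrib]
    refine Finset.sum_congr rfl fun S _ => ?_
    split_ifs <;> simp
  have hLβ : ∀ v, L v + 1 ≤ β := by
    intro v
    have h1 := hload v
    have h2 := hm2v v
    have h3 := hLsum v
    omega
  have hm3 : ∀ v, (∑ S : Finset V, if v ∈ S then m3 S else 0) = β - L v := by
    intro v
    have h1 : ∀ S : Finset V, (if v ∈ S then m3 S else 0) =
        ∑ u : V, if S = {u} then (if v ∈ S then β - L u else 0) else 0 := by
      intro S
      by_cases h : v ∈ S
      · simp only [h, if_true, m3]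
      · simp [h]
    rw [Finset.sum_congr rfl fun S _ => h1 S, Finset.sum_comm]
    have h2 : ∀ u : V, (∑ S : Finset V, if S = {u} then (if v ∈ S then β - L u else 0) else 0) =
        if v = u then β - L u else 0 := by
      intro u
      rw [Finset.sum_ite_eq']
      simp
    rw [Finset.sum_congr rfl fun u _ => h2 u, Finset.sum_ite_eq]
    simp
  refine ⟨Σ S : Finset V, Fin (m S), inferInstance, fun j => j.1, ?_, ?_, ?_, ?_⟩
  · rintro ⟨S, i⟩
    have hpos : 0 < m S := lt_of_le_of_lt (Nat.zero_le _) i.2
    simp only [m] at hpos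
    by_cases h1 : nS S = 0
    · by_cases h2 : m2 S = 0
      · have h3 : m3 S ≠ 0 := by omega
        simp only [m3] at h3
        obtain ⟨v, -, hv'⟩ := Finset.exists_ne_zero_of_sum_ne_zero h3
        have h4 : S = {v} := by
          by_contra hcon
          exact hv' (if_neg hcon)
        show S.card ≤ _
        rw [h4, Finset.card_singleton]
        exact le_max_of_le_right (by norm_num)
      · have h4 : E S := by
          by_contra hcon
          exact h2 (if_neg hcon)
        obtain ⟨a, b, -, hSab⟩ := h4
        show S.card ≤ _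
        rw [hSab]
        exact le_max_of_le_right Finset.card_le_two
    · obtain ⟨ω, hω⟩ := hWpos S (hnS_pos S h1)
      show S.card ≤ _
      rw [← hω]
      exact le_max_of_le_left (hcard ω)
  · intro v
    rw [cnt m (fun S => v ∈ S)]
    have h1 : (∑ S : Finset V, if v ∈ S then m S else 0) = L v +
        ∑ S : Finset V, if v ∈ S then m3 S else 0 := by
      rw [← Finset.sum_add_distrib]
      refine Finset.sum_congr rfl fun S _ => ?_
      split_ifs <;> simp [m]
    rw [h1, hm3]
    have := hLβ v
    omega
  · intro u v huv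
    rw [cnt m (fun S => u ∈ S ∧ v ∈ S)]
    have hne : u ≠ v := huv.ne
    have h1 : (∑ S : Finset V, if u ∈ S ∧ v ∈ S then m S else 0) =
        (∑ S : Finset V, if u ∈ S ∧ v ∈ S then nS S else 0) +
        ((∑ S : Finset V, if u ∈ S ∧ v ∈ S then m2 S else 0) +
        ∑ S : Finset V, if u ∈ S ∧ v ∈ S then m3 S else 0) := by
      rw [← Finset.sum_add_distrib, ← Finset.sum_add_distrib]
      refine Finset.sum_congr rfl fun S _ => ?_
      split_ifs
      · simp only [m]; ring
      · rfl
    have h2 : (∑ S : Finset V, if u ∈ S ∧ v ∈ S then m2 S else 0) = m2 {u, v} := by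
      rw [Finset.sum_eq_single ({u, v} : Finset V)]
      · rw [if_pos]
        simp
      · intro S _ hS
        by_cases h : u ∈ S ∧ v ∈ S
        · rw [if_pos h]
          simp only [m2]
          rw [if_neg]
          rintro ⟨a, b, hab, hSab⟩
          apply hS
          obtain ⟨hu, hv'⟩ := h
          rw [hSab, Finset.mem_insert, Finset.mem_singleton] at hu hv'
          rw [hSab]
          rcases hu with rfl | rfl
          · rcases hv' with h' | rfl
            · exact absurd h'.symm hne
            · rfl
          · rcases hv' with rfl | h'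
            · rw [Finset.pair_comm]
            · exact absurd h'.symm hne
        · rw [if_neg h]
      · intro h
        exact absurd (Finset.mem_univ _) h
    have h3 : (∑ S : Finset V, if u ∈ S ∧ v ∈ S then m3 S else 0) = 0 := by
      refine Finset.sum_eq_zero fun S _ => ?_
      by_cases h : u ∈ S ∧ v ∈ S
      · rw [if_pos h]
        simp only [m3]
        refine Finset.sum_eq_zero fun x _ => ?_
        rw [if_neg]
        intro hSx
        obtain ⟨hu, hv'⟩ := h
        rw [hSx, Finset.mem_singleton] at hu hv'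
        exact hne (hu.trans hv'.symm)
      · rw [if_neg h]
    have h4 : m2 {u, v} = s - cv {u, v} := if_pos ⟨u, v, huv, rfl⟩
    rw [h1, h2, h3, h4, ← hcv]
    have := hcvs u v huv
    omega
  · intro v
    have h1 : 0 < m {v} := by
      have h2 : β - L v ≤ m3 {v} := by
        simp only [m3]
        have := Finset.single_le_sum (s := univ) (a := v)
          (f := fun x : V => if ({v} : Finset V) = {x} then β - L x else 0)
          (fun _ _ => Nat.zero_le _) (Finset.mem_univ v)
        rw [if_pos rfl] at this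
        exact this
      have h3 := hLβ v
      simp only [m]
      omega
    exact ⟨⟨{v}, ⟨0, h1⟩⟩, rfl⟩

end Pool.Agent.Helper83.PU
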